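import Pool.Agent.W912.SE.Defs

set_option autoImplicit false

namespace Pool.Agent.W486.SE

open Pool.Agent.NPC Pool.Agent.H620R2.Gauge H568R2 Pool.Agent.H676 Pool.Agent.W912.SE
open Finset

lemma unif_nonneg : ∀ b, 0 ≤ unif b := by
  intro b
  unfold unif
  norm_num

lemma unif_sum : ∑ b, unif b = 1 := by
  simp [unif]

lemma Ex_prodW {I : Type*} [Fintype I] [DecidableEq I] (W : Finset I) (x : ℝ) :
    Ex unif (fun a : I → Bool => x ^ (W.filter (fun i => a i = true)).card) =
      ((1 + x) / 2) ^ W.card := by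
  have h1 : ∀ a : I → Bool, x ^ (W.filter (fun i => a i = true)).card =
      ∏ i, (if i ∈ W then (if a i = true then x else 1) else 1) := by
    intro a
    rw [← Finset.prod_const, Finset.prod_filter]
    rw [Finset.prod_ite_mem Finset.univ W (fun i => if a i = true then x else 1)]
    simp
  unfold Ex
  have h2 : ∀ a : I → Bool, (∏ i, unif (a i)) * x ^ (W.filter (fun i => a i = true)).card =
      ∏ i, (unif (a i) * (if i ∈ W then (if a i = true then x else 1) else 1)) := by
    intro a
    rw [h1 a, ← Finset.prod_mul_distrib]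
  rw [Finset.sum_congr rfl fun a _ => h2 a]
  rw [← Fintype.piFinset_univ, ← Finset.prod_univ_sum (fun _ => (Finset.univ : Finset Bool))
    (fun i b => unif b * (if i ∈ W then (if b = true then x else 1) else 1))]
  have h3 : ∀ i : I, ∑ b : Bool, unif b * (if i ∈ W then (if b = true then x else 1) else 1) =
      if i ∈ W then (1 + x) / 2 else 1 := by
    intro i
    by_cases hi : i ∈ W
    · simp [hi, unif]; ring
    · simp [hi, unif]
  rw [Finset.prod_congr rfl fun i _ => h3 i]
  rw [Finset.prod_ite_mem Finset.univ W (fun _ => (1 + x) / 2), Finset.univ_inter,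
    Finset.prod_const]

open Classical in
lemma markov {I : Type*} [Fintype I] [DecidableEq I] (W : Finset I) (u s : ℝ) (hu : 0 < u)
    (hs : 2 * s - 1 = u) :
    Ex unif (fun a : I → Bool =>
      if (((W.filter (fun i => a i = true)).card : ℝ) ≤ s * W.card) then (0 : ℝ) else 1) ≤
      Real.exp (-(u ^ 2 / 2)) ^ W.card := by
  have h1 : ∀ a : I → Bool,
      (if (((W.filter (fun i => a i = true)).card : ℝ) ≤ s * W.card) then (0 : ℝ) else 1) ≤
      Real.exp (-(2 * u * (s * W.card))) *
        (Real.exp (2 * u)) ^ (W.filter (fun i => a i = true)).card := by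
    intro a
    split_ifs with h
    · positivity
    · rw [← Real.exp_nat_mul, ← Real.exp_add]
      apply Real.one_le_exp
      push Not at h
      have : 2 * u * (s * W.card) ≤ 2 * u * ((W.filter (fun i => a i = true)).card : ℝ) :=
        mul_le_mul_of_nonneg_left h.le (by linarith)
      linarith
  refine (Ex_mono unif_nonneg h1).trans ?_
  rw [Ex_smul, Ex_prodW]
  have h2 : (1 + Real.exp (2 * u)) / 2 = Real.cosh u * Real.exp u := by
    rw [Real.cosh_eq]
    rw [show 2 * u = u + u by ring, Real.exp_add]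
    have : Real.exp (-u) * Real.exp u = 1 := by
      rw [← Real.exp_add]; simp
    linear_combination (-1 / 2 : ℝ) * this
  have h3 : (1 + Real.exp (2 * u)) / 2 ≤ Real.exp (u ^ 2 / 2 + u) := by
    rw [h2, Real.exp_add]
    exact mul_le_mul_of_nonneg_right (Real.cosh_le_exp_half_sq u) (Real.exp_pos _).le
  have h4 : ((1 + Real.exp (2 * u)) / 2) ^ W.card ≤ Real.exp (u ^ 2 / 2 + u) ^ W.card :=
    pow_le_pow_left₀ (by positivity) h3 _
  refine (mul_le_mul_of_nonneg_left h4 (Real.exp_pos _).le).trans ?_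
  rw [← Real.exp_nat_mul, ← Real.exp_nat_mul, ← Real.exp_add]
  apply Real.exp_le_exp.2
  have hs' : s = (u + 1) / 2 := by linarith
  rw [hs']
  apply le_of_eq
  ring

theorem far : S_FAR := by
  classical
  intro ε hε
  set u : ℝ := 1 - 2 * ε with hu
  have hu0 : 0 < u := by rw [hu]; linarith
  have hr : Real.exp (-(u ^ 2 / 2)) < 1 := by
    rw [Real.exp_lt_one_iff]
    have : 0 < u ^ 2 := by positivity
    linarith
  obtain ⟨m₁, hm₁⟩ := exists_pow_lt_of_lt_one (show (0 : ℝ) < 1 / 4 by norm_num) hr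
  refine ⟨m₁ + 1, by omega, ?_⟩
  have hm₀ : Real.exp (-(u ^ 2 / 2)) ^ (m₁ + 1) ≤ 1 / 4 := by
    refine le_trans (pow_le_pow_of_le_one (Real.exp_pos _).le hr.le (Nat.le_succ m₁)) hm₁.le
  intro n m hm I J _ _ _ W hJ hW
  have h1 : ∀ a : I → Bool, (1 : ℝ) - ∑ j : J,
      (if ((((W j).filter (fun i => a i = true)).card : ℝ) ≤ (1 - ε) * (W j).card) then (0 : ℝ)
        else 1) ≤ (if FarF W ((1 - ε) * m) a then (1 : ℝ) else 0) := by
    intro a
    have hnn : ∀ j ∈ (Finset.univ : Finset J), (0 : ℝ) ≤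
      (if ((((W j).filter (fun i => a i = true)).card : ℝ) ≤ (1 - ε) * (W j).card) then (0 : ℝ)
        else 1) := by
      intro j _
      split_ifs <;> norm_num
    split_ifs with h
    · have := Finset.sum_nonneg hnn
      linarith
    · unfold FarF at h
      push Not at h
      obtain ⟨j, hj⟩ := h
      have h5 := Finset.single_le_sum hnn (Finset.mem_univ j)
      rw [if_neg (by rw [hW j]; push Not; exact hj)] at h5
      linarith
  refine le_trans ?_ (Ex_mono unif_nonneg h1)
  have h6 : Ex unif (fun a : I → Bool => (1 : ℝ) - ∑ j : J,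
      (if ((((W j).filter (fun i => a i = true)).card : ℝ) ≤ (1 - ε) * (W j).card) then (0 : ℝ)
        else 1)) = 1 - ∑ j : J, Ex unif (fun a : I → Bool =>
      (if ((((W j).filter (fun i => a i = true)).card : ℝ) ≤ (1 - ε) * (W j).card) then (0 : ℝ)
        else 1)) := by
    have h7 : (fun a : I → Bool => (1 : ℝ) - ∑ j : J,
      (if ((((W j).filter (fun i => a i = true)).card : ℝ) ≤ (1 - ε) * (W j).card) then (0 : ℝ)
        else 1)) = fun a : I → Bool => (1 : ℝ) + (-1) * ∑ j : J,
      (if ((((W j).filter (fun i => a i = true)).card : ℝ) ≤ (1 - ε) * (W j).card) then (0 : ℝ)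
        else 1) := by
      funext a
      ring
    rw [h7, Ex_add unif (fun _ => (1 : ℝ)), Ex_smul, Ex_const unif_sum, Ex_sum Finset.univ]
    ring
  rw [h6]
  have h8 : ∀ j ∈ (Finset.univ : Finset J), Ex unif (fun a : I → Bool =>
      (if ((((W j).filter (fun i => a i = true)).card : ℝ) ≤ (1 - ε) * (W j).card) then (0 : ℝ)
        else 1)) ≤ (1 / 4) ^ (n + 1) := by
    intro j _
    refine (markov (W j) u (1 - ε) hu0 (by rw [hu]; ring)).trans ?_
    rw [hW j, hm, pow_mul]
    exact pow_le_pow_left₀ (by positivity) hm₀ _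
  have h9 := Finset.sum_le_sum h8
  rw [Finset.sum_const, Finset.card_univ, hJ, nsmul_eq_mul] at h9
  have h10 : ((2 ^ n : ℕ) : ℝ) * (1 / 4) ^ (n + 1) ≤ 1 / 4 := by
    push_cast
    rw [pow_succ, ← mul_assoc, ← mul_pow]
    have : ((2 : ℝ) * (1 / 4)) ^ n ≤ 1 := pow_le_one₀ (by norm_num) (by norm_num)
    linarith
  linarith

end Pool.Agent.W486.SE
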